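import Pool.Agent.TLW.Fin

/-!
The Tunnell difference `2|C_n| - |D_n|` for `n = 2m`, `m` squarefree, `m = 1` modulo 8, all primes
of `m` congruent to 1 or 7 modulo 8. With `w` the number of prime factors of `m` it is congruent to
`2 ^ (w + 2)` modulo `2 ^ (w + 3)`, hence nonzero, for a proportion of the `m` up to `X` which
tends to `(1 - 1/2) (1 - 1/4) (1 - 1/8) ...` as `X` tends to infinity.
-/

namespace Pool.Agent.Results.MP_f126a2_nt.ThinFamilyLaw

open Pool.Agent.H24 Filter Topology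

/-- The squarefree `m` with `1 < m ≤ X`, `m = 1` modulo 8, all of whose prime factors are 1 or 7
modulo 8. -/
def fam (X : ℕ) : Finset ℕ :=
  (Finset.Ioc 1 X).filter fun m =>
    m % 8 = 1 ∧ Squarefree m ∧ ∀ p ∈ m.primeFactors, p % 8 = 1 ∨ p % 8 = 7

/-- The Tunnell difference of `n = 2m`. -/
noncomputable def tun (m : ℕ) : ℤ := 2 * (cardC (2 * m) : ℤ) - (cardD (2 * m) : ℤ)

/-- Members of the family whose Tunnell difference has 2-adic valuation exactly `w + 2`,
`w` the number of prime factors. -/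
noncomputable def low (X : ℕ) : Finset ℕ :=
  (fam X).filter fun m =>
    tun m ≡ 2 ^ (m.primeFactors.card + 2) [ZMOD 2 ^ (m.primeFactors.card + 3)]

theorem fam_eq (X : ℕ) :
    fam X = (Pool.Agent.TLW.FF X).filter (fun m => 1 < m ∧ m % 8 = 1) := by
  ext m
  simp only [fam, Pool.Agent.TLW.FF, Pool.Agent.TLW.F1, Finset.mem_filter, Finset.mem_Ioc,
    Finset.mem_Icc]
  constructor
  · rintro ⟨⟨h1, h2⟩, h3, h4, h5⟩
    exact ⟨⟨⟨by omega, h2⟩, h4, h5⟩, h1, h3⟩
  · rintro ⟨⟨⟨_, h2⟩, h4, h5⟩, h1, h3⟩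
    exact ⟨⟨h1, h2⟩, h3, h4, h5⟩

/-- In the family, the proportion of `m` with `2|C_2m| - |D_2m| = 2 ^ (w + 2)` modulo
`2 ^ (w + 3)` tends to the product of the `1 - 2 ^ (-i)`, `i ≥ 1`. -/
theorem result : Tendsto (fun X : ℕ => ((low X).card : ℝ) / ((fam X).card : ℝ)) atTop
    (𝓝 (∏' i : ℕ, (1 - (1 / 2 : ℝ) ^ (i + 1)))) := by
  have h := Pool.Agent.TLW.dens
  have h1 : ∀ X : ℕ, (∑ m ∈ fam X, Pool.Agent.TLW.gT m) = ((low X).card : ℝ) := by
    intro X
    rw [low, Finset.card_filter]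
    push_cast
    rfl
  simp only [← fam_eq] at h
  simp only [h1] at h
  exact h

end Pool.Agent.Results.MP_f126a2_nt.ThinFamilyLaw
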