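import Pool.Agent.TQH.Fin

/-!
A congruence between the Tunnell differences `2|C_n| - |D_n|`, `n = 2 d`, for the divisors `d` of a
squarefree `m = 1 mod 4` and the numbers of representations of `d` and `2 d` by three squares.
-/

namespace Pool.Agent.Results.MP_f126a2_nt.TunnellDivisors

open Pool.Agent.H24

/-- The Tunnell difference `2|C_n| - |D_n|` for `n = 2 d`. -/
noncomputable def c (d : ℕ) : ℤ := 2 * (cardC (2 * d) : ℤ) - (cardD (2 * d) : ℤ)

/-- The weight `w(m, d)`: zero if `m` is not `1 mod 8`, and otherwise `2` if `d = 1 mod 4` and `9`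
if not. -/
def w (m d : ℕ) : ℤ := if m % 8 = 1 then (if d % 4 = 1 then 2 else 9) else 0

/-- For squarefree `m = 1 mod 4`, `m > 1`, with `k` prime factors: `36` times the sum of
`c d * c (m / d)` over the divisors of `m` modulo `9 * 2 ^ (k + 7)`. -/
theorem result (m : ℕ) (hm : Squarefree m) (h4 : m % 4 = 1) (hm1 : 1 < m) :
    36 * ∑ d ∈ m.divisors, c d * c (m / d) ≡
      ∑ d ∈ m.divisors, ((r3 (2 * d) : ℤ) * r3 (2 * (m / d)) - w m d * r3 d * r3 (m / d))
      [ZMOD 9 * 2 ^ (m.primeFactors.card + 7)] := by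
  rw [Int.modEq_iff_dvd, Finset.mul_sum, ← Finset.sum_sub_distrib]
  rcases (show m % 8 = 1 ∨ m % 8 = 5 by omega) with h8 | h8
  · have h := Pool.Agent.TQH.finA hm h8 hm1
    have e : ∑ d ∈ m.divisors, ((r3 (2 * d) : ℤ) * r3 (2 * (m / d)) -
        w m d * r3 d * r3 (m / d) - 36 * (c d * c (m / d))) =
        ∑ d ∈ m.divisors, ((r3 (2 * d) : ℤ) * r3 (2 * (m / d)) -
        (if d % 4 = 1 then 2 else 9) * r3 d * r3 (m / d)
          - 36 * Pool.Agent.TQH.cd d * Pool.Agent.TQH.cd (m / d)) := by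
      refine Finset.sum_congr rfl (fun d _ => ?_)
      unfold c Pool.Agent.TQH.cd w
      rw [if_pos h8]
      ring
    rw [e]
    exact h
  · have h := Pool.Agent.TQH.finB hm h8
    have e : ∑ d ∈ m.divisors, ((r3 (2 * d) : ℤ) * r3 (2 * (m / d)) -
        w m d * r3 d * r3 (m / d) - 36 * (c d * c (m / d))) =
        ∑ d ∈ m.divisors, ((r3 (2 * d) : ℤ) * r3 (2 * (m / d))
          - 36 * Pool.Agent.TQH.cd d * Pool.Agent.TQH.cd (m / d)) := by
      refine Finset.sum_congr rfl (fun d _ => ?_)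
      unfold c Pool.Agent.TQH.cd w
      rw [if_neg (by omega)]
      ring
    rw [e]
    exact h

end Pool.Agent.Results.MP_f126a2_nt.TunnellDivisors
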