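import Pool.Agent.H24.PrimeRep

/-!
An explicit congruence for the Tunnell difference `2|C_n| - |D_n|` when `n = 2 mod 32`.
-/

namespace Pool.Agent.Results.MP_f126a2_nt.TunnellMod384

open Pool.Agent.H24 PowerSeries

theorem general (N : ℕ) (hN : N % 2 = 0) (hsq : ¬ IsSquare (8 * N + 1)) : ∃ z : ℤ,
    6 * (2 * (cardC (2 * (8 * N + 1)) : ℤ) - cardD (2 * (8 * N + 1)))
      = (r3 (8 * N + 1) : ℤ) - r3 (2 * (8 * N + 1))
        + 3 * ((ArithmeticFunction.sigma 1 (8 * N + 1) : ℤ) + 3 * cm 16 (8 * N + 1)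
          - 4 * cm 8 (8 * N + 1) - 12 * r2odd 16 (8 * N + 1)) + 384 * z := by
  obtain ⟨z, hz⟩ := main_even N hN (coeff_ph_zero N hsq _)
  refine ⟨z, ?_⟩
  have e1 := sigma_formula N
  have e2 := coeff_cm 2 N (by norm_num)
  have e3 := coeff_cm 1 N (by norm_num)
  have e4 := coeff_diff N
  have e5 := r3_eq N hsq
  have e6 := r3_double N
  rw [expand_one_apply] at e3
  rw [coeff_cardC, coeff_cardD, e5, e6]
  norm_num at e2 e3
  linarith

theorem general16 (N : ℕ) (hN : N % 2 = 0) (hsq : ¬ IsSquare (8 * N + 1)) : ∃ z : ℤ,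
    12 * (cardC (2 * (8 * N + 1)) : ℤ) = r3 (8 * N + 1) + 192 * z := by
  obtain ⟨z, hz⟩ := main_even16 N hN (coeff_ph_zero N hsq _)
  refine ⟨z, ?_⟩
  have e5 := r3_eq N hsq
  rw [coeff_cardC, e5]
  linarith

theorem not_sq (p : ℕ) (hp : p.Prime) : ¬ IsSquare p := by
  rintro ⟨r, hr⟩
  rcases (Nat.Prime.eq_one_or_self_of_dvd hp r ⟨r, hr⟩) with h | h
  · rw [h] at hr
    have := hp.one_lt
    omega
  · rw [h] at hr
    have := hp.one_lt
    nlinarith

/-- Explicit congruence modulo 384 for `6 (2|C_n| - |D_n|)` when `n = 2 mod 32` and `n / 2` is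
not a square, and its evaluation for `n = 2p` with `p` a prime congruent to 1 modulo 16. -/
theorem result :
    (∀ n : ℕ, n % 32 = 2 → ¬ IsSquare (n / 2) →
      6 * (2 * (cardC n : ℤ) - cardD n) ≡
        (r3 (n / 2) : ℤ) - r3 n
          + 3 * ((ArithmeticFunction.sigma 1 (n / 2) : ℤ) + 3 * cm 16 (n / 2) - 4 * cm 8 (n / 2)
            - 12 * r2odd 16 (n / 2)) [ZMOD 384]) ∧
    (∀ p : ℕ, p.Prime → p % 16 = 1 →
      6 * (2 * (cardC (2 * p) : ℤ) - cardD (2 * p)) ≡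
        (r3 p : ℤ) - r3 (2 * p) + 192 * sp p [ZMOD 384]) := by
  constructor
  · intro n hn hsq
    obtain ⟨N, hN⟩ : ∃ N, n = 2 * (8 * N + 1) := ⟨n / 16, by omega⟩
    have hm : n / 2 = 8 * N + 1 := by omega
    have hN2 : N % 2 = 0 := by omega
    rw [hm] at hsq ⊢
    obtain ⟨z, hz⟩ := general N hN2 hsq
    rw [hN]
    apply Int.ModEq.symm
    rw [Int.modEq_iff_dvd]
    exact ⟨z, by linarith⟩
  · intro p hp h16
    obtain ⟨N, hN⟩ : ∃ N, p = 8 * N + 1 := ⟨p / 8, by omega⟩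
    have hN2 : N % 2 = 0 := by omega
    have hsq := not_sq p hp
    rw [hN] at hsq
    obtain ⟨z, hz⟩ := general N hN2 hsq
    obtain ⟨z', hz'⟩ := general16 N hN2 hsq
    have e5 := r3_eq N hsq
    have e6 := r3_double N
    have e7 := coeff_cardD N
    rw [← hN] at hz hz' e5 e6 e7
    have h64 : (64 : ℤ) ∣ ((ArithmeticFunction.sigma 1 p : ℤ) + 3 * cm 16 p - 4 * cm 8 p
        - 12 * (r2odd 16 p : ℤ)) := by
      omega
    obtain ⟨w, hw⟩ := terms_prime p hp h16 h64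
    rw [hw] at hz
    apply Int.ModEq.symm
    rw [Int.modEq_iff_dvd]
    exact ⟨w + z, by linarith⟩

end Pool.Agent.Results.MP_f126a2_nt.TunnellMod384
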