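import Pool.Agent.TQG.Fin

/-!
The Tunnell difference `2|C_n| - |D_n|` for `n = 2 p_0 ... p_k`, the `p_i` distinct primes
congruent to 1 or 7 modulo 8 with product 1 modulo 8, modulo `2 ^ (k + 4)`.
-/

namespace Pool.Agent.Results.MP_f126a2_nt.TunnellRedei

open Pool.Agent.H24 Pool.Agent.TQG

/-- The matrix over the field with two elements whose entry at `(i, j)`, `i ≠ j`, is `1` when
`p j` is a nonresidue modulo `p i` and `0` otherwise, and whose rows sum to zero. -/
def redei {k : ℕ} (p : Fin (k + 1) → ℕ) : Matrix (Fin (k + 1)) (Fin (k + 1)) (ZMod 2) :=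
  Matrix.of fun i j =>
    if i = j then ∑ l ∈ Finset.univ.erase i, (if jacobiSym (p l) (p i) = -1 then 1 else 0)
    else if jacobiSym (p j) (p i) = -1 then 1 else 0

/-- The vector with entry `1` at `i` when `p i` is 7 or 9 modulo 16. -/
def lamv {k : ℕ} (p : Fin (k + 1) → ℕ) : Fin (k + 1) → ZMod 2 :=
  fun i => if p i % 16 = 7 ∨ p i % 16 = 9 then 1 else 0

/-- The Tunnell difference for `n = 2 p_0 ... p_k` modulo `2 ^ (k + 4)`: it is `2 ^ (k + 3)` times
the determinant of the Redei matrix with first column replaced by `lamv`. -/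
theorem result (k : ℕ) (p : Fin (k + 1) → ℕ) (hp : ∀ i, (p i).Prime)
    (hinj : Function.Injective p) (h8 : ∀ i, p i % 8 = 1 ∨ p i % 8 = 7)
    (hm : (∏ i, p i) % 8 = 1) :
    2 * (cardC (2 * ∏ i, p i) : ℤ) - (cardD (2 * ∏ i, p i) : ℤ) ≡
      2 ^ (k + 3) * ((((redei p).updateCol 0 (lamv p)).det).val : ℤ) [ZMOD 2 ^ (k + 4)] :=
  fin k p hp hinj h8 hm

end Pool.Agent.Results.MP_f126a2_nt.TunnellRedei
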